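import Mathlib

/-!
# [H50 ST OPA] The operator `L F = ∑ (g_i')² F ∘ g_i` and the Fredholm alternative at `1`

`g_i` are holomorphic on the disc `B(c, 2δ)` with values in `B(c, 3δ/4)`, `∑ |g_i'|²` is bounded by a convergent series.
Either `L` has a bounded holomorphic fixed point, or there is a functional `Λ` on the bounded holomorphic functions on
`B(c, 2δ)` with `Λ (F - L F) = F c`.

Proof: realise `L` on `ℓ^∞` (Taylor coefficients); it is compact.
-/

set_option autoImplicit false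

namespace Pool.H50.ST

open Metric Filter Topology

/-- the bounded holomorphic functions on `B(c, r)` -/
def Bd (c : ℂ) (r : ℝ) (M : ℝ) (F : ℂ → ℂ) : Prop :=
  DifferentiableOn ℂ F (ball c r) ∧ ∀ w ∈ ball c r, ‖F w‖ ≤ M

/-- the operator -/
noncomputable def Lop {ι : Type*} (g : ι → ℂ → ℂ) (F : ℂ → ℂ) (w : ℂ) : ℂ :=
  ∑' i, deriv (g i) w ^ 2 * F (g i w)

/-- the space of bounded sequences -/
private abbrev E : Type := lp (fun _ : ℕ => ℂ) ⊤

/-- the function with the coefficients `a` -/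
private noncomputable def ev (a : E) (w : ℂ) : ℂ := ∑' n, a n * w ^ n

/-- the Taylor coefficients at `0` -/
private noncomputable def cf (F : ℂ → ℂ) (n : ℕ) : ℂ := (n.factorial : ℂ)⁻¹ * iteratedDeriv n F 0

private theorem cf_le {F : ℂ → ℂ} {M : ℝ} (hF : Bd 0 2 M F) (n : ℕ) : ‖cf F n‖ ≤ M / 2 ^ n := by
  have h0 : (0 : ℝ) < n.factorial := by exact_mod_cast n.factorial_pos
  have h1 : ∀ r : ℝ, 0 < r → r < 2 → ‖cf F n‖ ≤ M / r ^ n := by
    intro r hr hr2
    have hsub : closedBall (0 : ℂ) r ⊆ ball 0 2 := closedBall_subset_ball hr2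
    have h2 : DiffContOnCl ℂ F (ball 0 r) :=
      (hF.1.mono hsub).diffContOnCl_ball subset_rfl
    have h3 := Complex.norm_iteratedDeriv_le_of_forall_mem_sphere_norm_le n hr h2
      (fun z hz => hF.2 z (hsub (sphere_subset_closedBall hz)))
    unfold cf
    rw [norm_mul, norm_inv, Complex.norm_natCast, inv_mul_le_iff₀ h0]
    calc ‖iteratedDeriv n F 0‖ ≤ n.factorial * M / r ^ n := h3
      _ = n.factorial * (M / r ^ n) := by ring
  have h4 : Tendsto (fun r : ℝ => M / r ^ n) (𝓝[<] 2) (𝓝 (M / 2 ^ n)) := by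
    apply Tendsto.mono_left _ nhdsWithin_le_nhds
    exact tendsto_const_nhds.div ((continuous_pow n).tendsto 2) (by positivity)
  refine ge_of_tendsto h4 ?_
  have h5 : ∀ᶠ r : ℝ in 𝓝[<] 2, 0 < r :=
    nhdsWithin_le_nhds (eventually_gt_nhds (by norm_num))
  filter_upwards [h5, self_mem_nhdsWithin] with r hr hr2
  exact h1 r hr hr2

private theorem cf_mem {F : ℂ → ℂ} {M : ℝ} (hF : Bd 0 2 M F) : Memℓp (cf F) ⊤ := by
  apply memℓp_infty
  refine ⟨|M|, ?_⟩
  rintro _ ⟨n, rfl⟩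
  refine (cf_le hF n).trans ?_
  have h1 : (1 : ℝ) ≤ 2 ^ n := one_le_pow₀ (by norm_num)
  calc M / 2 ^ n ≤ |M| / 2 ^ n := by gcongr; exact le_abs_self M
    _ ≤ |M| := div_le_self (abs_nonneg M) h1

/-- the element of `E` -/
private noncomputable def rep (F : ℂ → ℂ) : E :=
  haveI := Classical.propDecidable (Memℓp (cf F) ⊤)
  if h : Memℓp (cf F) ⊤ then ⟨cf F, h⟩ else 0

private theorem rep_apply {F : ℂ → ℂ} {M : ℝ} (hF : Bd 0 2 M F) (n : ℕ) : rep F n = cf F n := by
  unfold rep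
  rw [dif_pos (cf_mem hF)]

private theorem rep_norm {F : ℂ → ℂ} {M : ℝ} (hM : 0 ≤ M) (hF : Bd 0 2 M F) : ‖rep F‖ ≤ M := by
  refine lp.norm_le_of_forall_le hM fun n => ?_
  rw [rep_apply hF]
  refine (cf_le hF n).trans (div_le_self hM (one_le_pow₀ (by norm_num)))

private theorem ev_rep {F : ℂ → ℂ} {M : ℝ} (hF : Bd 0 2 M F) {w : ℂ} (hw : w ∈ ball (0 : ℂ) 1) :
    ev (rep F) w = F w := by
  have hw2 : w ∈ ball (0 : ℂ) 2 := ball_subset_ball (by norm_num) hw
  rw [← Complex.taylorSeries_eq_on_ball' hw2 hF.1]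
  unfold ev
  refine tsum_congr fun n => ?_
  rw [rep_apply hF, cf, sub_zero]

private theorem ev_bd (a : E) {w : ℂ} {r : ℝ} (hr : r < 1) (hw : ‖w‖ ≤ r) :
    Summable (fun n => ‖a n * w ^ n‖) ∧ ‖ev a w‖ ≤ ‖a‖ * (1 - r)⁻¹ := by
  have hr0 : 0 ≤ r := (norm_nonneg w).trans hw
  have h1 : ∀ n, ‖a n * w ^ n‖ ≤ ‖a‖ * r ^ n := by
    intro n
    rw [norm_mul, norm_pow]
    have h2 : ‖a n‖ ≤ ‖a‖ := lp.norm_apply_le_norm ENNReal.top_ne_zero a n
    gcongr
  have h3 : HasSum (fun n => ‖a‖ * r ^ n) (‖a‖ * (1 - r)⁻¹) :=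
    (hasSum_geometric_of_lt_one hr0 hr).mul_left _
  refine ⟨Summable.of_nonneg_of_le (fun _ => norm_nonneg _) h1 h3.summable, ?_⟩
  exact tsum_of_norm_bounded h3 h1

private theorem ev_diff (a : E) : DifferentiableOn ℂ (ev a) (ball 0 1) := by
  intro w hw
  rw [mem_ball_zero_iff] at hw
  obtain ⟨r, hr1, hr2⟩ := exists_between hw
  have hr0 : 0 ≤ r := (norm_nonneg w).trans hr1.le
  have h1 : DifferentiableOn ℂ (fun z : ℂ => ∑' n, a n * z ^ n) (ball 0 r) := by
    refine Complex.differentiableOn_tsum_of_summable_norm (u := fun n => ‖a‖ * r ^ n)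
      ((summable_geometric_of_lt_one hr0 hr2).mul_left _) (fun n => ?_) isOpen_ball ?_
    · fun_prop
    · intro n z hz
      rw [mem_ball_zero_iff] at hz
      rw [norm_mul, norm_pow]
      have h2 : ‖a n‖ ≤ ‖a‖ := lp.norm_apply_le_norm ENNReal.top_ne_zero a n
      gcongr
  exact ((h1 w (mem_ball_zero_iff.2 hr1)).differentiableAt
    (isOpen_ball.mem_nhds (mem_ball_zero_iff.2 hr1))).differentiableWithinAt

private theorem ev_add (a b : E) {w : ℂ} (hw : ‖w‖ < 1) : ev (a + b) w = ev a w + ev b w := by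
  unfold ev
  rw [← ((ev_bd a hw le_rfl).1.of_norm).tsum_add ((ev_bd b hw le_rfl).1.of_norm)]
  refine tsum_congr fun n => ?_
  rw [lp.coeFn_add, Pi.add_apply, add_mul]

private theorem ev_smul (z : ℂ) (a : E) {w : ℂ} : ev (z • a) w = z * ev a w := by
  unfold ev
  rw [← tsum_mul_left]
  refine tsum_congr fun n => ?_
  rw [lp.coeFn_smul, Pi.smul_apply, smul_eq_mul, mul_assoc]

private theorem cf_add {F G : ℂ → ℂ} {r : ℝ} (hr : 0 < r) (hF : DifferentiableOn ℂ F (ball 0 r))
    (hG : DifferentiableOn ℂ G (ball 0 r)) (n : ℕ) :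
    cf (fun w => F w + G w) n = cf F n + cf G n := by
  have h0 : (0 : ℂ) ∈ ball (0 : ℂ) r := mem_ball_self hr
  have h1 : ContDiffAt ℂ n F 0 := (hF.analyticAt (isOpen_ball.mem_nhds h0)).contDiffAt
  have h2 : ContDiffAt ℂ n G 0 := (hG.analyticAt (isOpen_ball.mem_nhds h0)).contDiffAt
  unfold cf
  rw [← mul_add, ← iteratedDeriv_add h1 h2]
  rfl

private theorem cf_smul (F : ℂ → ℂ) (z : ℂ) (n : ℕ) :
    cf (fun w => z * F w) n = z * cf F n := by
  unfold cf
  rw [iteratedDeriv_const_mul_field]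
  ring

private theorem cf_congr {F G : ℂ → ℂ} {r : ℝ} (hr : 0 < r) (h : ∀ w ∈ ball (0 : ℂ) r, F w = G w) :
    cf F = cf G := by
  funext n
  unfold cf
  congr 1
  apply Filter.EventuallyEq.iteratedDeriv_eq
  filter_upwards [isOpen_ball.mem_nhds (mem_ball_self hr)] with w hw
  exact h w hw

/-- the assumptions on the branches -/
structure Sys {ι : Type*} (c : ℂ) (δ : ℝ) (g : ι → ℂ → ℂ) (u : ι → ℝ) : Prop where
  su : Summable u
  df : ∀ i, DifferentiableOn ℂ (g i) (ball c (2 * δ))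
  mp : ∀ i, ∀ w ∈ ball c (2 * δ), g i w ∈ ball c (3 / 4 * δ)
  dv : ∀ i, ∀ w ∈ ball c (2 * δ), ‖deriv (g i) w‖ ^ 2 ≤ u i

section unit

variable {ι : Type*} {g : ι → ℂ → ℂ} {u : ι → ℝ}

private theorem mem34 {z : ℂ} (h : z ∈ ball (0 : ℂ) (3 / 4 * 1)) : ‖z‖ ≤ 3 / 4 := by
  rw [mem_ball_zero_iff] at h
  linarith

/-- the operator on functions which are bounded on `B(0, 3/4)` -/
private theorem lop_bd (hs : Sys 0 1 g u) {F : ℂ → ℂ} {M : ℝ} (hM : 0 ≤ M)
    (hF : DifferentiableOn ℂ F (ball 0 1)) (hFM : ∀ w, ‖w‖ ≤ 3 / 4 → ‖F w‖ ≤ M) :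
    Bd 0 2 (M * ∑' i, u i) (Lop g F) ∧
      ∀ w ∈ ball (0 : ℂ) 2, Summable (fun i => ‖deriv (g i) w ^ 2 * F (g i w)‖) := by
  have h2 : (2 : ℝ) * 1 = 2 := by norm_num
  have hdf := hs.df
  have hmp := hs.mp
  have hdv := hs.dv
  rw [h2] at hdf hmp hdv
  have h3 : ∀ i, ∀ w ∈ ball (0 : ℂ) 2, ‖deriv (g i) w ^ 2 * F (g i w)‖ ≤ M * u i := by
    intro i w hw
    rw [norm_mul, norm_pow, mul_comm]
    have h4 := hdv i w hw
    have h5 := hFM _ (mem34 (hmp i w hw))
    have h6 : 0 ≤ ‖deriv (g i) w‖ ^ 2 := by positivity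
    exact mul_le_mul h5 h4 h6 hM
  have hsu : Summable (fun i => M * u i) := hs.su.mul_left M
  refine ⟨⟨?_, ?_⟩, ?_⟩
  · refine Complex.differentiableOn_tsum_of_summable_norm hsu (fun i => ?_) isOpen_ball h3
    refine (((hdf i).deriv isOpen_ball).pow 2).mul (hF.comp (hdf i) fun w hw => ?_)
    have h7 := mem34 (hmp i w hw)
    rw [mem_ball_zero_iff]
    linarith
  · intro w hw
    unfold Lop
    rw [← tsum_mul_left]
    exact tsum_of_norm_bounded hsu.hasSum (fun i => h3 i w hw)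
  · intro w hw
    exact Summable.of_nonneg_of_le (fun _ => norm_nonneg _) (fun i => h3 i w hw) hsu

private theorem ev34 (a : E) : ∀ w, ‖w‖ ≤ 3 / 4 → ‖ev a w‖ ≤ ‖a‖ * 4 := by
  intro w hw
  have h := (ev_bd a (by norm_num : (3 / 4 : ℝ) < 1) hw).2
  norm_num at h
  exact h

private theorem su_nonneg (hs : Sys 0 1 g u) : 0 ≤ ∑' i, u i := by
  refine tsum_nonneg fun i => ?_
  have h := hs.dv i 0 (mem_ball_self (by norm_num))
  exact (by positivity : (0 : ℝ) ≤ ‖deriv (g i) 0‖ ^ 2).trans h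

private theorem lev_bd (hs : Sys 0 1 g u) (a : E) :
    Bd 0 2 (‖a‖ * 4 * ∑' i, u i) (Lop g (ev a)) :=
  (lop_bd hs (by positivity) (ev_diff a) (ev34 a)).1

/-- the operator on sequences -/
private noncomputable def T (hs : Sys 0 1 g u) : E →L[ℂ] E :=
  LinearMap.mkContinuous
    { toFun := fun a => rep (Lop g (ev a))
      map_add' := by
        intro a b
        have hmp := hs.mp
        rw [(by norm_num : (2 : ℝ) * 1 = 2)] at hmp
        have hsum : ∀ w ∈ ball (0 : ℂ) 2, Lop g (ev (a + b)) w =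
            Lop g (ev a) w + Lop g (ev b) w := by
          intro w hw
          have h1 := ((lop_bd hs (by positivity) (ev_diff a) (ev34 a)).2 w hw).of_norm
          have h2 := ((lop_bd hs (by positivity) (ev_diff b) (ev34 b)).2 w hw).of_norm
          unfold Lop
          rw [← h1.tsum_add h2]
          refine tsum_congr fun i => ?_
          have h3 := mem34 (hmp i w hw)
          rw [ev_add a b (by linarith), mul_add]
        apply lp.ext
        funext n
        rw [lp.coeFn_add, Pi.add_apply, rep_apply (lev_bd hs _), rep_apply (lev_bd hs _),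
          rep_apply (lev_bd hs _), cf_congr (by norm_num : (0 : ℝ) < 2) hsum,
          cf_add (by norm_num) (lev_bd hs a).1 (lev_bd hs b).1]
      map_smul' := by
        intro z a
        have hsum : ∀ w ∈ ball (0 : ℂ) 2, Lop g (ev (z • a)) w = z * Lop g (ev a) w := by
          intro w hw
          unfold Lop
          rw [← tsum_mul_left]
          refine tsum_congr fun i => ?_
          rw [ev_smul]
          ring
        apply lp.ext
        funext n
        rw [RingHom.id_apply, lp.coeFn_smul, Pi.smul_apply, smul_eq_mul,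
          rep_apply (lev_bd hs _), rep_apply (lev_bd hs _),
          cf_congr (by norm_num : (0 : ℝ) < 2) hsum, cf_smul] }
    (4 * ∑' i, u i) (by
      intro a
      have h1 := rep_norm (mul_nonneg (by positivity) (su_nonneg hs)) (lev_bd hs a)
      calc ‖rep (Lop g (ev a))‖ ≤ ‖a‖ * 4 * ∑' i, u i := h1
        _ = (4 * ∑' i, u i) * ‖a‖ := by ring)

private theorem T_apply (hs : Sys 0 1 g u) (a : E) : T hs a = rep (Lop g (ev a)) := rfl

/-- the projection to the first `N` coefficients after `T` -/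
private noncomputable def TN (hs : Sys 0 1 g u) (N : ℕ) : E →L[ℂ] E :=
  ∑ n ∈ Finset.range N, ((ContinuousLinearMap.toSpanSingleton ℂ
    (lp.single ⊤ n (1 : ℂ) : E)).comp (lp.evalCLM ℂ (fun _ : ℕ => ℂ) ⊤ n)).comp (T hs)

private theorem TN_apply (hs : Sys 0 1 g u) (N : ℕ) (a : E) (m : ℕ) :
    TN hs N a m = if m < N then T hs a m else 0 := by
  unfold TN
  rw [_root_.sum_apply, lp.coeFn_sum, Finset.sum_apply]
  have h : ∀ n ∈ Finset.range N, (((ContinuousLinearMap.toSpanSingleton ℂ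
      (lp.single ⊤ n (1 : ℂ) : E)).comp (lp.evalCLM ℂ (fun _ : ℕ => ℂ) ⊤ n)).comp (T hs)) a m =
      if m = n then T hs a m else 0 := by
    intro n _
    rw [ContinuousLinearMap.comp_apply, ContinuousLinearMap.comp_apply,
      ContinuousLinearMap.toSpanSingleton_apply, lp.coeFn_smul, Pi.smul_apply, lp.single_apply,
      smul_eq_mul]
    by_cases hmn : m = n
    · subst hmn
      rw [if_pos rfl, Pi.single_eq_same, mul_one]
      rfl
    · rw [if_neg hmn, Pi.single_eq_of_ne hmn, mul_zero]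
  rw [Finset.sum_congr rfl h, Finset.sum_ite_eq]
  simp only [Finset.mem_range]

private theorem TN_compact (hs : Sys 0 1 g u) (N : ℕ) : IsCompactOperator (TN hs N) := by
  unfold TN
  induction N with
  | zero =>
    rw [Finset.range_zero, Finset.sum_empty]
    exact isCompactOperator_zero
  | succ N ih =>
    rw [Finset.sum_range_succ]
    refine IsCompactOperator.add ih ?_
    have h1 : IsCompactOperator (lp.evalCLM ℂ (fun _ : ℕ => ℂ) ⊤ N) :=
      isCompactOperator_of_locallyCompactSpace_dom _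
    exact (h1.clm_comp (ContinuousLinearMap.toSpanSingleton ℂ
      (lp.single ⊤ N (1 : ℂ) : E))).comp_clm (T hs)

private theorem T_compact (hs : Sys 0 1 g u) : IsCompactOperator (T hs) := by
  refine isCompactOperator_of_tendsto (l := atTop) (F := TN hs) ?_
    (Filter.Eventually.of_forall fun N => TN_compact hs N)
  have hS := su_nonneg hs
  have h1 : ∀ N : ℕ, ‖TN hs N - T hs‖ ≤ (4 * ∑' i, u i) * (1 / 2) ^ N := by
    intro N
    refine ContinuousLinearMap.opNorm_le_bound _ (by positivity) fun a => ?_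
    refine lp.norm_le_of_forall_le (by positivity) fun m => ?_
    rw [_root_.sub_apply, lp.coeFn_sub, Pi.sub_apply, TN_apply]
    split_ifs with hm
    · rw [sub_self, norm_zero]
      positivity
    · rw [zero_sub, norm_neg, T_apply, rep_apply (lev_bd hs a)]
      refine (cf_le (lev_bd hs a) m).trans ?_
      have h2 : (2 : ℝ) ^ N ≤ 2 ^ m := pow_le_pow_right₀ (by norm_num) (by omega)
      calc ‖a‖ * 4 * (∑' i, u i) / 2 ^ m ≤ ‖a‖ * 4 * (∑' i, u i) / 2 ^ N := by gcongr
        _ = (4 * ∑' i, u i) * (1 / 2) ^ N * ‖a‖ := by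
            rw [one_div, inv_pow]
            ring
  rw [tendsto_iff_norm_sub_tendsto_zero]
  refine squeeze_zero (fun _ => norm_nonneg _) h1 ?_
  have h3 := (tendsto_pow_atTop_nhds_zero_of_lt_one (by norm_num : (0 : ℝ) ≤ 1 / 2)
    (by norm_num)).const_mul (4 * ∑' i, u i)
  rwa [mul_zero] at h3

private theorem ev_cf (hs : Sys 0 1 g u) {F : ℂ → ℂ} {M : ℝ} (hF : Bd 0 2 M F) :
    ∀ w ∈ ball (0 : ℂ) 2, Lop g (ev (rep F)) w = Lop g F w := by
  intro w hw
  have hmp := hs.mp
  rw [(by norm_num : (2 : ℝ) * 1 = 2)] at hmp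
  unfold Lop
  refine tsum_congr fun i => ?_
  rw [ev_rep hF]
  have h := mem34 (hmp i w hw)
  rw [mem_ball_zero_iff]
  linarith

private theorem alt_unit (hs : Sys 0 1 g u) (k : ℕ) :
    (∃ (φ : ℂ → ℂ) (M : ℝ), Bd 0 2 M φ ∧ (∃ w ∈ ball (0 : ℂ) 1, φ w ≠ 0) ∧
      ∀ w ∈ ball (0 : ℂ) 2, φ w = Lop g φ w) ∨
    ∃ (Λ : (ℂ → ℂ) → ℂ) (C : ℝ), 0 ≤ C ∧
      (∀ F G M N, Bd 0 2 M F → Bd 0 2 N G → Λ (fun w => F w + G w) = Λ F + Λ G) ∧
      (∀ z F M, Bd 0 2 M F → Λ (fun w => z * F w) = z * Λ F) ∧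
      (∀ F M, 0 ≤ M → Bd 0 2 M F → ‖Λ F‖ ≤ C * M) ∧
      (∀ F G, (∀ w ∈ ball (0 : ℂ) 2, F w = G w) → Λ F = Λ G) ∧
      ∀ F M, Bd 0 2 M F → Λ (fun w => F w - Lop g F w) = iteratedDeriv k F 0 := by
  rcases (T_compact hs).hasEigenvalue_or_mem_resolventSet (one_ne_zero (α := ℂ)) with h | h
  · left
    obtain ⟨a, ha⟩ := h.exists_hasEigenvector
    have h1 : T hs a = a := by
      have h2 := ha.apply_eq_smul
      rw [one_smul] at h2
      exact h2
    have h0 : a ≠ 0 := ha.2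
    have hB := lev_bd hs a
    have h3 : ∀ w ∈ ball (0 : ℂ) 1, ev a w = Lop g (ev a) w := by
      intro w hw
      conv_lhs => rw [← h1, T_apply]
      exact ev_rep hB hw
    refine ⟨Lop g (ev a), _, hB, ?_, ?_⟩
    · by_contra hcon
      push Not at hcon
      apply h0
      rw [← h1, T_apply]
      apply lp.ext
      funext n
      rw [rep_apply hB, cf_congr one_pos hcon]
      unfold cf
      rw [iteratedDeriv_fun_const_zero]
      simp
    · intro w hw
      have hmp := hs.mp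
      rw [(by norm_num : (2 : ℝ) * 1 = 2)] at hmp
      change (∑' i, deriv (g i) w ^ 2 * ev a (g i w)) =
        ∑' i, deriv (g i) w ^ 2 * Lop g (ev a) (g i w)
      refine tsum_congr fun i => ?_
      rw [← h3 (g i w)]
      have h := mem34 (hmp i w hw)
      rw [mem_ball_zero_iff]
      linarith
  · right
    rw [spectrum.mem_resolventSet_iff, map_one] at h
    obtain ⟨U, hU⟩ := h
    obtain ⟨R, hR⟩ : ∃ R : E →L[ℂ] E, R = ((U⁻¹ : (E →L[ℂ] E)ˣ) : E →L[ℂ] E) := ⟨_, rfl⟩
    have hR1 : ∀ a : E, R (a - T hs a) = a := by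
      intro a
      have h1 : a - T hs a = (U : E →L[ℂ] E) a := by rw [hU]; rfl
      rw [h1, hR, ← mul_apply_eq_comp, Units.inv_mul]
      rfl
    refine ⟨fun F => k.factorial * R (rep F) k, k.factorial * ‖R‖, by positivity, ?_, ?_, ?_, ?_,
      ?_⟩
    · intro F G M N hF hG
      have h1 : Bd 0 2 (M + N) (fun w => F w + G w) :=
        ⟨hF.1.add hG.1, fun w hw => (norm_add_le _ _).trans (add_le_add (hF.2 w hw) (hG.2 w hw))⟩
      have h2 : rep (fun w => F w + G w) = rep F + rep G := by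
        apply lp.ext
        funext n
        rw [lp.coeFn_add, Pi.add_apply, rep_apply h1, rep_apply hF, rep_apply hG,
          cf_add two_pos hF.1 hG.1]
      beta_reduce
      rw [h2, map_add, ← mul_add]
      rfl
    · intro z F M hF
      have h1 : Bd 0 2 (‖z‖ * M) (fun w => z * F w) :=
        ⟨hF.1.const_mul z, fun w hw => by
          rw [norm_mul]
          exact mul_le_mul_of_nonneg_left (hF.2 w hw) (norm_nonneg z)⟩
      have h2 : rep (fun w => z * F w) = z • rep F := by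
        apply lp.ext
        funext n
        rw [lp.coeFn_smul, Pi.smul_apply, smul_eq_mul, rep_apply h1, rep_apply hF, cf_smul]
      beta_reduce
      rw [h2, map_smul, lp.coeFn_smul, Pi.smul_apply, smul_eq_mul]
      ring
    · intro F M hM hF
      rw [norm_mul, Complex.norm_natCast, mul_assoc]
      refine mul_le_mul_of_nonneg_left ?_ (Nat.cast_nonneg _)
      refine (lp.norm_apply_le_norm ENNReal.top_ne_zero _ k).trans ?_
      refine (R.le_opNorm _).trans ?_
      exact mul_le_mul_of_nonneg_left (rep_norm hM hF) (norm_nonneg _)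
    · intro F G h
      have h1 : rep F = rep G := by
        unfold rep
        rw [cf_congr two_pos h]
      beta_reduce
      rw [h1]
    · intro F M hF
      have hF' : Bd 0 2 |M| F := ⟨hF.1, fun w hw => (hF.2 w hw).trans (le_abs_self M)⟩
      have hL := (lop_bd hs (abs_nonneg M) (hF.1.mono (ball_subset_ball (by norm_num)))
        (fun w hw => hF'.2 w (by rw [mem_ball_zero_iff]; linarith))).1
      have h1 : Bd 0 2 (M + |M| * ∑' i, u i) (fun w => F w - Lop g F w) :=
        ⟨hF.1.sub hL.1, fun w hw => (norm_sub_le _ _).trans (add_le_add (hF.2 w hw) (hL.2 w hw))⟩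
      have h2 : rep (fun w => F w - Lop g F w) = rep F - T hs (rep F) := by
        apply lp.ext
        funext n
        rw [lp.coeFn_sub, Pi.sub_apply, rep_apply h1, rep_apply hF, T_apply,
          rep_apply (lev_bd hs _), cf_congr two_pos (ev_cf hs hF)]
        have h3 := cf_add two_pos hF.1 (hL.1.const_mul (-1)) n
        rw [cf_smul] at h3
        have h4 : cf (fun w => F w - Lop g F w) = cf (fun w => F w + -1 * Lop g F w) :=
          cf_congr two_pos fun w _ => by ring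
        rw [h4, h3]
        ring
      beta_reduce
      rw [h2, hR1, rep_apply hF]
      unfold cf
      rw [mul_inv_cancel_left₀ (Nat.cast_ne_zero.2 k.factorial_ne_zero)]

end unit

/-- the affine change of variable -/
private theorem bd_scale {c : ℂ} {δ : ℝ} (hδ : 0 < δ) {M : ℝ} {F : ℂ → ℂ} (hF : Bd c (2 * δ) M F) :
    Bd 0 2 M (fun w => F (c + δ * w)) := by
  have hmap : ∀ w ∈ ball (0 : ℂ) 2, c + δ * w ∈ ball c (2 * δ) := by
    intro w hw
    rw [mem_ball_zero_iff] at hw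
    rw [mem_ball, dist_eq_norm, add_sub_cancel_left, norm_mul, Complex.norm_real,
      Real.norm_eq_abs, abs_of_pos hδ]
    nlinarith
  refine ⟨hF.1.comp (by fun_prop) hmap, fun w hw => hF.2 _ (hmap w hw)⟩

private theorem bd_unscale {c : ℂ} {δ : ℝ} (hδ : 0 < δ) {M : ℝ} {F : ℂ → ℂ} (hF : Bd 0 2 M F) :
    Bd c (2 * δ) M (fun w => F ((w - c) / δ)) := by
  have hmap : ∀ w ∈ ball c (2 * δ), (w - c) / δ ∈ ball (0 : ℂ) 2 := by
    intro w hw
    rw [mem_ball, dist_eq_norm] at hw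
    rw [mem_ball_zero_iff, norm_div, Complex.norm_real, Real.norm_eq_abs, abs_of_pos hδ,
      div_lt_iff₀ hδ]
    exact hw
  refine ⟨hF.1.comp (by fun_prop) hmap, fun w hw => hF.2 _ (hmap w hw)⟩

private theorem sys_scale {ι : Type*} {c : ℂ} {δ : ℝ} (hδ : 0 < δ) {g : ι → ℂ → ℂ} {u : ι → ℝ}
    (hs : Sys c δ g u) : Sys 0 1 (fun i w => (g i (c + δ * w) - c) / δ) u ∧
      ∀ i, ∀ w ∈ ball (0 : ℂ) 2, deriv (fun w => (g i (c + δ * w) - c) / δ) w =
        deriv (g i) (c + δ * w) := by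
  have hδ' : (δ : ℂ) ≠ 0 := by exact_mod_cast hδ.ne'
  have hmap : ∀ w ∈ ball (0 : ℂ) 2, c + δ * w ∈ ball c (2 * δ) := by
    intro w hw
    rw [mem_ball_zero_iff] at hw
    rw [mem_ball, dist_eq_norm, add_sub_cancel_left, norm_mul, Complex.norm_real,
      Real.norm_eq_abs, abs_of_pos hδ]
    nlinarith
  have hder : ∀ i, ∀ w ∈ ball (0 : ℂ) 2, HasDerivAt (fun w => (g i (c + δ * w) - c) / δ)
      (deriv (g i) (c + δ * w)) w := by
    intro i w hw
    have h1 : HasDerivAt (g i) (deriv (g i) (c + δ * w)) (c + δ * w) :=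
      ((hs.df i).differentiableAt (isOpen_ball.mem_nhds (hmap w hw))).hasDerivAt
    have h2 : HasDerivAt (fun w : ℂ => c + δ * w) (δ : ℂ) w := by
      have := ((hasDerivAt_id w).const_mul (δ : ℂ)).const_add c
      simpa using this
    have h3 := ((h1.comp w h2).sub_const c).div_const (δ : ℂ)
    rwa [mul_div_assoc, div_self hδ', mul_one] at h3
  refine ⟨⟨hs.su, ?_, ?_, ?_⟩, fun i w hw => (hder i w hw).deriv⟩
  · intro i w hw
    rw [mul_one] at hw
    exact (hder i w hw).differentiableAt.differentiableWithinAt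
  · intro i w hw
    rw [mul_one] at hw
    have h1 := hs.mp i _ (hmap w hw)
    rw [mem_ball, dist_eq_norm] at h1
    rw [mul_one, mem_ball_zero_iff, norm_div, Complex.norm_real, Real.norm_eq_abs, abs_of_pos hδ,
      div_lt_iff₀ hδ]
    exact h1
  · intro i w hw
    rw [mul_one] at hw
    rw [(hder i w hw).deriv]
    exact hs.dv i _ (hmap w hw)

private theorem itd_aff (δ : ℂ) (c : ℂ) (F : ℂ → ℂ) (k : ℕ) :
    iteratedDeriv k (fun w => F (c + δ * w)) = fun w => δ ^ k * iteratedDeriv k F (c + δ * w) := by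
  induction k with
  | zero =>
    funext w
    rw [iteratedDeriv_zero, iteratedDeriv_zero, pow_zero, one_mul]
  | succ k ih =>
    rw [iteratedDeriv_succ, ih, iteratedDeriv_succ]
    funext w
    have h1 : (fun w : ℂ => δ ^ k * iteratedDeriv k F (c + δ * w)) =
        fun w : ℂ => δ ^ k * (fun v => iteratedDeriv k F (c + v)) (δ * w) := rfl
    rw [h1, deriv_const_mul_field, deriv_comp_mul_left δ (fun v => iteratedDeriv k F (c + v)) w,
      deriv_comp_const_add, smul_eq_mul]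
    ring

/-- **Fredholm alternative at `1` for the operator `L`**, with the `k`-th derivative. -/
theorem opak {ι : Type*} {c : ℂ} {δ : ℝ} (hδ : 0 < δ) {g : ι → ℂ → ℂ} {u : ι → ℝ}
    (hs : Sys c δ g u) (k : ℕ) :
    (∃ (φ : ℂ → ℂ) (M : ℝ), Bd c (2 * δ) M φ ∧ (∃ w ∈ ball c δ, φ w ≠ 0) ∧
      ∀ w ∈ ball c (2 * δ), φ w = Lop g φ w) ∨
    ∃ (Λ : (ℂ → ℂ) → ℂ) (C : ℝ), 0 ≤ C ∧
      (∀ F G M N, Bd c (2 * δ) M F → Bd c (2 * δ) N G →
        Λ (fun w => F w + G w) = Λ F + Λ G) ∧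
      (∀ z F M, Bd c (2 * δ) M F → Λ (fun w => z * F w) = z * Λ F) ∧
      (∀ F M, 0 ≤ M → Bd c (2 * δ) M F → ‖Λ F‖ ≤ C * M) ∧
      (∀ F G, (∀ w ∈ ball c (2 * δ), F w = G w) → Λ F = Λ G) ∧
      ∀ F M, Bd c (2 * δ) M F → Λ (fun w => F w - Lop g F w) = iteratedDeriv k F c := by
  have hδ' : (δ : ℂ) ≠ 0 := by exact_mod_cast hδ.ne'
  obtain ⟨hs1, hder⟩ := sys_scale hδ hs
  have hmap : ∀ w ∈ ball (0 : ℂ) 2, c + δ * w ∈ ball c (2 * δ) := by
    intro w hw
    rw [mem_ball_zero_iff] at hw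
    rw [mem_ball, dist_eq_norm, add_sub_cancel_left, norm_mul, Complex.norm_real,
      Real.norm_eq_abs, abs_of_pos hδ]
    nlinarith
  have hlop : ∀ F : ℂ → ℂ, ∀ w ∈ ball (0 : ℂ) 2,
      Lop (fun i w => (g i (c + δ * w) - c) / δ) (fun w => F (c + δ * w)) w =
        Lop g F (c + δ * w) := by
    intro F w hw
    unfold Lop
    refine tsum_congr fun i => ?_
    rw [hder i w hw]
    beta_reduce
    rw [mul_div_cancel₀ _ hδ', add_sub_cancel]
  rcases alt_unit hs1 k with ⟨φ, M, hB, ⟨w0, hw0, hne⟩, hfix⟩ | ⟨Λ, C, hC, h1, h2, h3, h4, h5⟩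
  · left
    refine ⟨fun w => φ ((w - c) / δ), M, bd_unscale hδ hB, ⟨c + δ * w0, ?_, ?_⟩, ?_⟩
    · rw [mem_ball_zero_iff] at hw0
      rw [mem_ball, dist_eq_norm, add_sub_cancel_left, norm_mul, Complex.norm_real,
        Real.norm_eq_abs, abs_of_pos hδ]
      nlinarith
    · beta_reduce
      rwa [add_sub_cancel_left, mul_div_cancel_left₀ _ hδ']
    · intro w hw
      have hw' : (w - c) / δ ∈ ball (0 : ℂ) 2 := by
        rw [mem_ball, dist_eq_norm] at hw
        rw [mem_ball_zero_iff, norm_div, Complex.norm_real, Real.norm_eq_abs, abs_of_pos hδ,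
          div_lt_iff₀ hδ]
        exact hw
      have h6 := hlop (fun w => φ ((w - c) / δ)) _ hw'
      have h7 : (fun w : ℂ => (fun w => φ ((w - c) / δ)) (c + δ * w)) = φ := by
        funext z
        beta_reduce
        rw [add_sub_cancel_left, mul_div_cancel_left₀ _ hδ']
      rw [h7, mul_div_cancel₀ _ hδ', add_sub_cancel] at h6
      rw [← h6]
      exact hfix _ hw'
  · right
    have hk : ((δ : ℂ) ^ k) ≠ 0 := pow_ne_zero _ hδ'
    refine ⟨fun F => Λ (fun w => F (c + δ * w)) / δ ^ k, C / δ ^ k, by positivity, ?_, ?_, ?_, ?_,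
      ?_⟩
    · intro F G M N hF hG
      beta_reduce
      rw [h1 _ _ M N (bd_scale hδ hF) (bd_scale hδ hG), add_div]
    · intro z F M hF
      beta_reduce
      rw [h2 z _ M (bd_scale hδ hF), mul_div_assoc]
    · intro F M hM hF
      rw [norm_div, norm_pow, Complex.norm_real, Real.norm_eq_abs, abs_of_pos hδ, div_mul_eq_mul_div]
      exact div_le_div_of_nonneg_right (h3 _ M hM (bd_scale hδ hF)) (by positivity)
    · intro F G h
      beta_reduce
      rw [h4 _ _ fun w hw => h _ (hmap w hw)]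
    · intro F M hF
      have h6 := h5 _ M (bd_scale hδ hF)
      rw [itd_aff] at h6
      beta_reduce at h6
      rw [mul_zero, add_zero] at h6
      rw [div_eq_iff hk, mul_comm, ← h6]
      exact h4 _ _ fun w hw => by rw [hlop F w hw]

/-- **Fredholm alternative at `1` for the operator `L`.** -/
theorem opa {ι : Type*} {c : ℂ} {δ : ℝ} (hδ : 0 < δ) {g : ι → ℂ → ℂ} {u : ι → ℝ}
    (hs : Sys c δ g u) :
    (∃ (φ : ℂ → ℂ) (M : ℝ), Bd c (2 * δ) M φ ∧ (∃ w ∈ ball c δ, φ w ≠ 0) ∧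
      ∀ w ∈ ball c (2 * δ), φ w = Lop g φ w) ∨
    ∃ (Λ : (ℂ → ℂ) → ℂ) (C : ℝ), 0 ≤ C ∧
      (∀ F G M N, Bd c (2 * δ) M F → Bd c (2 * δ) N G →
        Λ (fun w => F w + G w) = Λ F + Λ G) ∧
      (∀ z F M, Bd c (2 * δ) M F → Λ (fun w => z * F w) = z * Λ F) ∧
      (∀ F M, 0 ≤ M → Bd c (2 * δ) M F → ‖Λ F‖ ≤ C * M) ∧
      (∀ F G, (∀ w ∈ ball c (2 * δ), F w = G w) → Λ F = Λ G) ∧
      ∀ F M, Bd c (2 * δ) M F → Λ (fun w => F w - Lop g F w) = F c := by
  have h := opak hδ hs 0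
  simpa only [iteratedDeriv_zero] using h

end Pool.H50.ST
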