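import Pool.Agent.H80.AJ.Cover
import Pool.Agent.H80.AJ.Distort

/-!
# [H50 ST KOEA] Univalent functions: small returns and sums over disjoint images
-/

set_option autoImplicit false

namespace Pool.H50.ST

open Metric Set MeasureTheory Pool.Agent.H80.AJ

/-- a univalent function which omits `c` and takes a value near `c` has a small image of a small disc -/
theorem small_ret {g : ℂ → ℂ} {c : ℂ} {ρ δ : ℝ} (hδ : 0 < δ) (hρ : 300000 * δ ≤ ρ)
    (hg : DifferentiableOn ℂ g (ball c ρ)) (hi : InjOn g (ball c ρ)) (hc : c ∉ g '' ball c ρ)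
    {w₀ : ℂ} (hw₀ : w₀ ∈ ball c (2 * δ)) (hgw : g w₀ ∈ ball c (2 * δ)) :
    ∀ w ∈ ball c (2 * δ), ‖g w - g w₀‖ ≤ δ / 20 := by
  have hρ0 : 0 < ρ := by linarith
  have h1 : ρ * ‖deriv g c‖ / 16 ≤ ‖g c - c‖ := by
    by_contra hcon
    push Not at hcon
    apply hc
    apply univ_cover hρ0 hg hi
    rw [mem_ball, dist_eq_norm, norm_sub_rev]
    exact hcon
  have h2 : ∀ w ∈ ball c (2 * δ), ‖deriv g w‖ ≤ 40 * ‖deriv g c‖ := by
    intro w hw
    rw [mem_ball, dist_eq_norm] at hw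
    exact local_upper hρ0 hg hi (by linarith)
  have hsub : ball c (2 * δ) ⊆ ball c ρ := ball_subset_ball (by linarith)
  have h3 : ∀ w ∈ ball c (2 * δ), ∀ w' ∈ ball c (2 * δ),
      ‖g w - g w'‖ ≤ 40 * ‖deriv g c‖ * (4 * δ) := by
    intro w hw w' hw'
    have h4 := (convex_ball c (2 * δ)).norm_image_sub_le_of_norm_deriv_le (f := g)
      (fun x hx => (hg x (hsub hx)).differentiableAt (isOpen_ball.mem_nhds (hsub hx))) h2 hw' hw
    refine h4.trans ?_
    rw [mem_ball, dist_eq_norm] at hw hw'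
    have h5 : ‖w - w'‖ ≤ 4 * δ := by
      have h6 : w - w' = (w - c) - (w' - c) := by ring
      rw [h6]
      refine (norm_sub_le _ _).trans ?_
      linarith
    gcongr
  have hcm : c ∈ ball c (2 * δ) := mem_ball_self (by linarith)
  have h4 := h3 c hcm w₀ hw₀
  rw [mem_ball, dist_eq_norm] at hgw
  have h5 : ‖g c - c‖ ≤ ‖g c - g w₀‖ + ‖g w₀ - c‖ := norm_sub_le_norm_sub_add_norm_sub _ _ _
  have h6 : 0 ≤ ‖deriv g c‖ := norm_nonneg _
  have h7 : ‖deriv g c‖ * δ * 300000 ≤ ‖deriv g c‖ * ρ := by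
    calc ‖deriv g c‖ * δ * 300000 = ‖deriv g c‖ * (300000 * δ) := by ring
      _ ≤ ‖deriv g c‖ * ρ := mul_le_mul_of_nonneg_left hρ h6
  have h8 : 40 * ‖deriv g c‖ * (4 * δ) ≤ δ / 20 := by nlinarith
  intro w hw
  exact (h3 w hw w₀ hw₀).trans h8

/-- the same with the constant of the distortion theorem, `ρ = 131072 KK s` -/
theorem small_ret2 {g : ℂ → ℂ} {c : ℂ} {s : ℝ} (hs : 0 < s)
    (hg : DifferentiableOn ℂ g (ball c (131072 * KK * s)))
    (hi : InjOn g (ball c (131072 * KK * s))) (hc : c ∉ g '' ball c (131072 * KK * s))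
    {w₀ : ℂ} (hw₀ : w₀ ∈ ball c (8 * s)) (hgw : g w₀ ∈ ball c (8 * s)) :
    ∀ w ∈ ball c (8 * s), ‖g w - g w₀‖ ≤ s / 50 := by
  have hK := one_le_KK
  have hKs : s ≤ KK * s := by nlinarith
  have hρ0 : 0 < 131072 * KK * s := by positivity
  have h1 : 131072 * KK * s * ‖deriv g c‖ / 16 ≤ ‖g c - c‖ := by
    by_contra hcon
    push Not at hcon
    apply hc
    apply univ_cover hρ0 hg hi
    rw [mem_ball, dist_eq_norm, norm_sub_rev]
    exact hcon
  have hsub : ball c (8 * s) ⊆ closedBall c (131072 * KK * s / 2) := by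
    intro w hw
    rw [mem_ball] at hw
    rw [mem_closedBall]
    nlinarith
  have hcm : c ∈ closedBall c (131072 * KK * s / 2) := mem_closedBall_self (by positivity)
  have h3 : ∀ w ∈ ball c (8 * s), ∀ w' ∈ ball c (8 * s),
      ‖g w - g w'‖ ≤ KK * ‖deriv g c‖ * (16 * s) := by
    intro w hw w' hw'
    have h4 := distort_lip hρ0 hg hi (hsub hw) (hsub hw') hcm
    refine h4.trans ?_
    rw [mem_ball, dist_eq_norm] at hw hw'
    have h5 : ‖w - w'‖ ≤ 16 * s := by
      have h6 : w - w' = (w - c) - (w' - c) := by ring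
      rw [h6]
      refine (norm_sub_le _ _).trans ?_
      linarith
    have h7 : 0 ≤ KK * ‖deriv g c‖ := by positivity
    exact mul_le_mul_of_nonneg_left h5 h7
  have h8 : KK * ‖deriv g c‖ * (16 * s) ≤ ‖g c - c‖ / 512 := by
    have e : KK * ‖deriv g c‖ * (16 * s) = 131072 * KK * s * ‖deriv g c‖ / 16 / 512 := by ring
    rw [e]
    linarith
  have hcm' : c ∈ ball c (8 * s) := mem_ball_self (by linarith)
  have h4 := (h3 c hcm' w₀ hw₀).trans h8
  rw [mem_ball, dist_eq_norm] at hgw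
  have h5 : ‖g c - c‖ ≤ ‖g c - g w₀‖ + ‖g w₀ - c‖ := norm_sub_le_norm_sub_add_norm_sub _ _ _
  have h9 : KK * ‖deriv g c‖ * (16 * s) ≤ s / 50 := by linarith
  intro w hw
  exact (h3 w hw w₀ hw₀).trans h9

/-- the area of a disc -/
private theorem vol_ball (z : ℂ) (r : ℝ) :
    volume (ball z r) = ENNReal.ofReal r ^ 2 * NNReal.pi := Complex.volume_ball z r

/-- **Sums over univalent functions with disjoint images.** -/
theorem sum_bd {ι : Type*} [Countable ι] {g : ι → ℂ → ℂ} {c : ℂ} {δ : ℝ} (hδ : 0 < δ)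
    (hg : ∀ i, DifferentiableOn ℂ (g i) (ball c δ)) (hi : ∀ i, InjOn (g i) (ball c δ)) {D : Set ℂ}
    (hD : volume D ≠ ⊤) (hgD : ∀ i, g i '' ball c δ ⊆ D)
    (hdis : Pairwise fun i j => Disjoint (g i '' ball c δ) (g j '' ball c δ)) :
    Summable fun i => ‖deriv (g i) c‖ ^ 2 := by
  have h1 : ∀ i, ball (g i c) (δ * ‖deriv (g i) c‖ / 16) ⊆ g i '' ball c δ := fun i =>
    univ_cover hδ (hg i) (hi i)
  have h2 : ∑' i, volume (ball (g i c) (δ * ‖deriv (g i) c‖ / 16)) ≤ volume D := by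
    rw [← measure_iUnion (fun i j hij => (hdis hij).mono (h1 i) (h1 j)) fun i =>
      measurableSet_ball]
    exact measure_mono (iUnion_subset fun i => (h1 i).trans (hgD i))
  have h3 : ∑' i, volume (ball (g i c) (δ * ‖deriv (g i) c‖ / 16)) ≠ ⊤ :=
    ne_top_of_le_ne_top hD h2
  have h4 : Summable fun i => (volume (ball (g i c) (δ * ‖deriv (g i) c‖ / 16))).toReal :=
    ENNReal.summable_toReal h3
  have hpi : (0 : ℝ) < (δ / 16) ^ 2 * Real.pi := by positivity
  have h5 : (fun i => (volume (ball (g i c) (δ * ‖deriv (g i) c‖ / 16))).toReal) =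
      fun i => (δ / 16) ^ 2 * Real.pi * ‖deriv (g i) c‖ ^ 2 := by
    funext i
    rw [vol_ball, ENNReal.toReal_mul, ENNReal.toReal_pow, ENNReal.toReal_ofReal (by positivity)]
    simp only [ENNReal.coe_toReal, NNReal.coe_real_pi]
    ring
  rw [h5] at h4
  exact (summable_mul_left_iff hpi.ne').1 h4

/-- the assumptions of `opa` for univalent functions with disjoint images -/
theorem dv_bd {g : ℂ → ℂ} {c : ℂ} {ρ δ : ℝ} (hδ : 0 < δ) (hρ : 300000 * δ ≤ ρ)
    (hg : DifferentiableOn ℂ g (ball c ρ)) (hi : InjOn g (ball c ρ)) :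
    ∀ w ∈ ball c (2 * δ), ‖deriv g w‖ ^ 2 ≤ 1600 * ‖deriv g c‖ ^ 2 := by
  intro w hw
  rw [mem_ball, dist_eq_norm] at hw
  have h1 := local_upper (by linarith) hg hi (z := w) (by linarith)
  calc ‖deriv g w‖ ^ 2 ≤ (40 * ‖deriv g c‖) ^ 2 := by gcongr
    _ = 1600 * ‖deriv g c‖ ^ 2 := by ring

end Pool.H50.ST
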