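import Pool.Agent.H50.ST.OPA
import Pool.Agent.H61.TT.Surj

/-!
# [H50 ST XIA] From the identity in the variable `w` to the cohomological equation

`Λ` is the functional of `opa`. `E z w` is the sum over the entries, `K z w` the kernel.
-/

set_option autoImplicit false

namespace Pool.H50.ST

open Metric Polynomial Pool.Agent.H61.TT

/-- the properties of the functional of `opa` -/
structure Fnl {ι : Type*} (c : ℂ) (δ : ℝ) (g : ι → ℂ → ℂ) (Λ : (ℂ → ℂ) → ℂ) (C₀ : ℝ) (k : ℕ) :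
    Prop where
  nn : 0 ≤ C₀
  add : ∀ F G M N, Bd c (2 * δ) M F → Bd c (2 * δ) N G → Λ (fun w => F w + G w) = Λ F + Λ G
  smul : ∀ z F M, Bd c (2 * δ) M F → Λ (fun w => z * F w) = z * Λ F
  bd : ∀ F M, 0 ≤ M → Bd c (2 * δ) M F → ‖Λ F‖ ≤ C₀ * M
  congr : ∀ F G, (∀ w ∈ ball c (2 * δ), F w = G w) → Λ F = Λ G
  res : ∀ F M, Bd c (2 * δ) M F → Λ (fun w => F w - Lop g F w) = iteratedDeriv k F c

theorem bd_add {c : ℂ} {r M N : ℝ} {F G : ℂ → ℂ} (hF : Bd c r M F) (hG : Bd c r N G) :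
    Bd c r (M + N) (fun w => F w + G w) :=
  ⟨hF.1.add hG.1, fun w hw => (norm_add_le _ _).trans (add_le_add (hF.2 w hw) (hG.2 w hw))⟩

theorem bd_mul {c : ℂ} {r M : ℝ} {F : ℂ → ℂ} (z : ℂ) (hF : Bd c r M F) :
    Bd c r (‖z‖ * M) (fun w => z * F w) :=
  ⟨hF.1.const_mul z, fun w hw => by
    rw [norm_mul]
    exact mul_le_mul_of_nonneg_left (hF.2 w hw) (norm_nonneg z)⟩

theorem Fnl.zero {ι : Type*} {c : ℂ} {δ : ℝ} {g : ι → ℂ → ℂ} {Λ : (ℂ → ℂ) → ℂ} {C₀ : ℝ}
    {k : ℕ} (h : Fnl c δ g Λ C₀ k) : Λ (fun _ => 0) = 0 := by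
  have h1 := h.smul 0 (fun _ => 0) 0 ⟨differentiableOn_const 0, fun w _ => by rw [norm_zero]⟩
  simpa using h1

/-- finite linear combinations -/
theorem Fnl.sum {ι : Type*} {c : ℂ} {δ : ℝ} {g : ι → ℂ → ℂ} {Λ : (ℂ → ℂ) → ℂ} {C₀ : ℝ}
    {k : ℕ} (h : Fnl c δ g Λ C₀ k) (s : Finset ℂ) (l : ℂ → ℂ) (F : ℂ → ℂ → ℂ)
    (hF : ∀ j ∈ s, ∃ M, Bd c (2 * δ) M (F j)) :
    (∃ M, Bd c (2 * δ) M (fun w => ∑ j ∈ s, l j * F j w)) ∧
      Λ (fun w => ∑ j ∈ s, l j * F j w) = ∑ j ∈ s, l j * Λ (F j) := by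
  classical
  induction s using Finset.induction_on with
  | empty =>
    refine ⟨⟨0, ?_⟩, ?_⟩
    · simp only [Finset.sum_empty]
      exact ⟨differentiableOn_const 0, fun w _ => by rw [norm_zero]⟩
    · simp only [Finset.sum_empty]
      exact h.zero
  | insert j s hj ih =>
    obtain ⟨⟨M, hM⟩, h2⟩ := ih fun i hi => hF i (Finset.mem_insert_of_mem hi)
    obtain ⟨N, hN⟩ := hF j (Finset.mem_insert_self j s)
    have h3 := bd_mul (l j) hN
    simp only [Finset.sum_insert hj]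
    refine ⟨⟨_, bd_add h3 hM⟩, ?_⟩
    rw [h.add _ _ _ _ h3 hM, h.smul _ _ _ hN, h2]

/-- **The cohomological equation, first form.** -/
theorem xi_one {ι : Type*} {c : ℂ} {δ : ℝ} {g : ι → ℂ → ℂ} {Λ : (ℂ → ℂ) → ℂ} {C₀ : ℝ}
    {k : ℕ} (h : Fnl c δ g Λ C₀ k) {d : ℕ} {a b : Polynomial ℂ} {E K : ℂ → ℂ → ℂ} {S : Set ℂ}
    (hS : S.Infinite) (hSb : ∀ z ∈ S, b.eval z ≠ 0)
    (hE : ∀ z ∈ S, ∃ M, Bd c (2 * δ) M (E z)) (hE' : ∀ z ∈ S, ∃ M, Bd c (2 * δ) M (E (gg a b z)))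
    (hK : ∀ z ∈ S, ∃ M, Bd c (2 * δ) M (K z)) (hL : ∀ z ∈ S, ∃ M, Bd c (2 * δ) M (Lop g (K z)))
    (hbc : b.eval c ≠ 0) (hEc : ∃ M, Bd c (2 * δ) M (E (gg a b c)))
    (hid : ∀ w ∈ ball c (2 * δ), ∃ η : Polynomial ℂ, η.natDegree ≤ 2 * d ∧
      (∀ z ∈ S, dg a b z * (E z w - K z w + Lop g (K z) w) =
        E (gg a b z) w + η.eval z / b.eval z ^ 2) ∧
      0 = E (gg a b c) w + η.eval c / b.eval c ^ 2) :
    ∃ q : Polynomial ℂ, q.natDegree ≤ 2 * d ∧
      (∀ z ∈ S, dg a b z * (Λ (E z) - iteratedDeriv k (K z) c) =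
        Λ (E (gg a b z)) + q.eval z / b.eval z ^ 2) ∧
      0 = Λ (E (gg a b c)) + q.eval c / b.eval c ^ 2 := by
  classical
  obtain ⟨s, hsS, hcard⟩ := hS.exists_subset_card_eq (2 * d + 1)
  -- the function of the node
  obtain ⟨N, hN⟩ : ∃ N : ℂ → ℂ → ℂ, ∀ z w, N z w = b.eval z ^ 2 *
      (dg a b z * (E z w + (-1) * (K z w + (-1) * Lop g (K z) w)) + (-1) * E (gg a b z) w) :=
    ⟨_, fun _ _ => rfl⟩
  have hNb : ∀ z ∈ S, (∃ M, Bd c (2 * δ) M (N z)) ∧ Λ (N z) = b.eval z ^ 2 *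
      (dg a b z * (Λ (E z) - iteratedDeriv k (K z) c) - Λ (E (gg a b z))) := by
    intro z hz
    obtain ⟨M1, h1⟩ := hE z hz
    obtain ⟨M2, h2⟩ := hE' z hz
    obtain ⟨M3, h3⟩ := hK z hz
    obtain ⟨M4, h4⟩ := hL z hz
    have e : N z = fun w => b.eval z ^ 2 * (dg a b z * (E z w + (-1) *
        (K z w + (-1) * Lop g (K z) w)) + (-1) * E (gg a b z) w) := funext (hN z)
    rw [e]
    have b1 := bd_mul (-1) h4
    have b2 := bd_add h3 b1
    have b3 := bd_mul (-1) b2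
    have b4 := bd_add h1 b3
    have b5 := bd_mul (dg a b z) b4
    have b6 := bd_mul (-1) h2
    have b7 := bd_add b5 b6
    refine ⟨⟨_, bd_mul _ b7⟩, ?_⟩
    have r1 : Λ (fun w => K z w + (-1) * Lop g (K z) w) = iteratedDeriv k (K z) c := by
      rw [← h.res (K z) M3 h3]
      exact h.congr _ _ fun w _ => by ring
    rw [h.smul _ _ _ b7, h.add _ _ _ _ b5 b6, h.smul _ _ _ b4, h.add _ _ _ _ h1 b3,
      h.smul _ _ _ b2, r1, h.smul _ _ _ h2]
    ring
  have hNe : ∀ z ∈ S, ∀ w ∈ ball c (2 * δ), ∀ η : Polynomial ℂ,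
      dg a b z * (E z w - K z w + Lop g (K z) w) =
        E (gg a b z) w + η.eval z / b.eval z ^ 2 → N z w = η.eval z := by
    intro z hz w hw η he
    have hb := hSb z hz
    rw [hN]
    have e1 : dg a b z * (E z w + (-1) * (K z w + (-1) * Lop g (K z) w)) =
        E (gg a b z) w + η.eval z / b.eval z ^ 2 := by rw [← he]; ring
    rw [e1]
    field_simp
    ring
  -- interpolation
  have hint : ∀ η : Polynomial ℂ, η.natDegree ≤ 2 * d → ∀ z : ℂ,
      η.eval z = ∑ j ∈ s, (Lagrange.basis s id j).eval z * η.eval j := by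
    intro η hη z
    have h1 : η.degree < s.card := by
      rw [hcard]
      refine lt_of_le_of_lt degree_le_natDegree ?_
      exact_mod_cast (by omega : η.natDegree < 2 * d + 1)
    have h2 := Lagrange.eq_interpolate (v := (id : ℂ → ℂ)) (Set.injOn_id _) h1
    conv_lhs => rw [h2]
    rw [Lagrange.interpolate_apply, eval_finsetSum]
    refine Finset.sum_congr rfl fun j _ => ?_
    rw [eval_mul, eval_C, id, mul_comm]
  refine ⟨∑ j ∈ s, C (Λ (N j)) * Lagrange.basis s id j, ?_, ?_, ?_⟩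
  · refine natDegree_sum_le_of_forall_le _ _ fun j hj => ?_
    refine (natDegree_C_mul_le _ _).trans ?_
    rw [Lagrange.natDegree_basis (Set.injOn_id _) hj, hcard]
    omega
  · intro z hz
    have hb := hSb z hz
    have h1 := (h.sum s (fun j => (Lagrange.basis s id j).eval z) N
      fun j hj => (hNb j (hsS hj)).1).2
    have h2 : Λ (N z) = Λ (fun w => ∑ j ∈ s, (Lagrange.basis s id j).eval z * N j w) := by
      refine h.congr _ _ fun w hw => ?_
      obtain ⟨η, hη, h3, -⟩ := hid w hw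
      rw [hNe z hz w hw η (h3 z hz), hint η hη z]
      refine Finset.sum_congr rfl fun j hj => ?_
      rw [hNe j (hsS hj) w hw η (h3 j (hsS hj))]
    rw [h1, (hNb z hz).2] at h2
    rw [eval_finsetSum]
    have h4 : ∑ j ∈ s, eval z (C (Λ (N j)) * Lagrange.basis s id j) =
        ∑ j ∈ s, (Lagrange.basis s id j).eval z * Λ (N j) :=
      Finset.sum_congr rfl fun j _ => by rw [eval_mul, eval_C, mul_comm]
    rw [h4, ← h2]
    field_simp
    ring
  · have h1 := (h.sum s (fun j => (Lagrange.basis s id j).eval c) N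
      fun j hj => (hNb j (hsS hj)).1).2
    obtain ⟨M, hM⟩ := hEc
    have h2 : Λ (fun w => (-b.eval c ^ 2) * E (gg a b c) w) =
        Λ (fun w => ∑ j ∈ s, (Lagrange.basis s id j).eval c * N j w) := by
      refine h.congr _ _ fun w hw => ?_
      obtain ⟨η, hη, h3, h4⟩ := hid w hw
      have h5 : (-b.eval c ^ 2) * E (gg a b c) w = η.eval c := by
        have h6 : E (gg a b c) w = -(η.eval c / b.eval c ^ 2) := by linear_combination -h4
        rw [h6]
        field_simp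
      rw [h5, hint η hη c]
      refine Finset.sum_congr rfl fun j hj => ?_
      rw [hNe j (hsS hj) w hw η (h3 j (hsS hj))]
    rw [h1, h.smul _ _ _ hM] at h2
    rw [eval_finsetSum]
    have h4 : ∑ j ∈ s, eval c (C (Λ (N j)) * Lagrange.basis s id j) =
        ∑ j ∈ s, (Lagrange.basis s id j).eval c * Λ (N j) :=
      Finset.sum_congr rfl fun j _ => by rw [eval_mul, eval_C, mul_comm]
    rw [h4, ← h2]
    field_simp
    ring

/-- the normalised kernel -/
noncomputable def Kn (z w : ℂ) : ℂ := z * (z - 1) / (w * (w - 1) * (w - z))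

private theorem inv_itd (k : ℕ) (a w : ℂ) :
    iteratedDeriv k (fun x => (x - a)⁻¹) w = (-1) ^ k * k.factorial * ((w - a) ^ (k + 1))⁻¹ := by
  have h := congrFun (iter_deriv_inv_linear_sub k (1 : ℂ) a) w
  simp only [one_mul, one_pow, mul_one] at h
  have e : (w - a) ^ (-1 - (k : ℤ)) = ((w - a) ^ (k + 1))⁻¹ := by
    rw [show (-1 - (k : ℤ)) = -((k + 1 : ℕ) : ℤ) by push_cast; ring, zpow_neg, zpow_natCast]
  rw [iteratedDeriv_eq_iterate, h, e]

private theorem inv_cd {a c : ℂ} (h : c ≠ a) (n : ℕ) :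
    ContDiffAt ℂ n (fun x : ℂ => (x - a)⁻¹) c := by
  have h1 : c - a ≠ 0 := sub_ne_zero.2 h
  fun_prop (disch := assumption)

/-- the derivatives of the kernel -/
theorem kn_itd (k : ℕ) {z c : ℂ} (h0 : c ≠ 0) (h1 : c ≠ 1) (hz : c ≠ z) :
    iteratedDeriv k (Kn z) c = (-1) ^ k * k.factorial * (((c - z) ^ (k + 1))⁻¹ +
      (z - 1) * (c ^ (k + 1))⁻¹ - z * ((c - 1) ^ (k + 1))⁻¹) := by
  have h2 : Kn z =ᶠ[nhds c] fun w => (w - z)⁻¹ +
      ((z - 1) * (w - 0)⁻¹ + (-z) * (w - 1)⁻¹) := by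
    filter_upwards [isOpen_ne.mem_nhds h0, isOpen_ne.mem_nhds h1, isOpen_ne.mem_nhds hz] with
      w hw0 hw1 hwz
    have e1 : w - 1 ≠ 0 := sub_ne_zero.2 hw1
    have e2 : w - z ≠ 0 := sub_ne_zero.2 hwz
    have e3 : w ≠ 0 := hw0
    unfold Kn
    rw [sub_zero]
    field_simp
    ring
  rw [h2.iteratedDeriv_eq]
  have c1 := inv_cd hz k
  have c2 := inv_cd h0 k
  have c3 := inv_cd h1 k
  have e1 : (fun w : ℂ => (w - z)⁻¹ + ((z - 1) * (w - 0)⁻¹ + (-z) * (w - 1)⁻¹)) =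
      (fun w : ℂ => (w - z)⁻¹) + ((fun w : ℂ => (z - 1) * (w - 0)⁻¹) +
        (fun w : ℂ => (-z) * (w - 1)⁻¹)) := rfl
  have c2' : ContDiffAt ℂ k (fun w : ℂ => (z - 1) * (w - 0)⁻¹) c := contDiffAt_const.mul c2
  have c3' : ContDiffAt ℂ k (fun w : ℂ => (-z) * (w - 1)⁻¹) c := contDiffAt_const.mul c3
  have c23 : ContDiffAt ℂ k ((fun w : ℂ => (z - 1) * (w - 0)⁻¹) +
      (fun w : ℂ => (-z) * (w - 1)⁻¹)) c := c2'.add c3'
  rw [e1, iteratedDeriv_add c1 c23, iteratedDeriv_add c2' c3',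
    iteratedDeriv_const_mul_field, iteratedDeriv_const_mul_field, inv_itd, inv_itd, inv_itd,
    sub_zero]
  ring

/-- **The cohomological equation, second form**: the pole of the kernel at `c` is removed; `c` is a
critical point of multiplicity `k + 1`. -/
theorem xi_two {d : ℕ} {a b : Polynomial ℂ} (hab : RatD d a b) {c : ℂ} (hbc : b.eval c ≠ 0)
    {k : ℕ} {W : Polynomial ℂ} (hW : ww a b = (X - C c) ^ (k + 1) * W) (hWc : W.eval c ≠ 0)
    (h0 : c ≠ 0) (h1 : c ≠ 1) {Ξ : ℂ → ℂ} {S : Set ℂ}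
    (hSb : ∀ z ∈ S, b.eval z ≠ 0) (hSc : c ∉ S) {q : Polynomial ℂ} (hq : q.natDegree ≤ 2 * d)
    (h : ∀ z ∈ S, dg a b z * (Ξ z - iteratedDeriv k (Kn z) c) =
      Ξ (gg a b z) + q.eval z / b.eval z ^ 2)
    (hc : 0 = Ξ (gg a b c) + q.eval c / b.eval c ^ 2) :
    ∃ (η : Polynomial ℂ) (κ : ℂ), κ ≠ 0 ∧ η.natDegree ≤ 2 * d ∧
      (∀ z ∈ S, Ξ (gg a b z) = dg a b z * Ξ z + η.eval z / b.eval z ^ 2) ∧
      η.eval c / b.eval c ^ 2 = Ξ (gg a b c) + κ := by
  have hd := hab.hd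
  have ha : a.natDegree ≤ d := by rw [← hab.deg]; exact le_max_left _ _
  have hb : b.natDegree ≤ d := by rw [← hab.deg]; exact le_max_right _ _
  have hwd : (ww a b).natDegree ≤ 2 * d - 1 := by
    have ha' := natDegree_derivative_le a
    have hb' := natDegree_derivative_le b
    unfold ww
    refine (natDegree_sub_le _ _).trans (max_le ?_ ?_)
    · refine natDegree_mul_le.trans ?_
      omega
    · refine natDegree_mul_le.trans ?_
      omega
  have hW0 : W ≠ 0 := by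
    rintro rfl
    exact hWc eval_zero
  have hWd : W.natDegree ≤ 2 * d := by
    have h2 : (ww a b).natDegree = (k + 1) + W.natDegree := by
      rw [hW, natDegree_mul (pow_ne_zero _ (X_sub_C_ne_zero c)) hW0, natDegree_pow,
        natDegree_X_sub_C, mul_one]
    omega
  have h6 : c - 1 ≠ 0 := sub_ne_zero.2 h1
  have hwc : (ww a b).eval c = 0 := by
    rw [hW, eval_mul, eval_pow, eval_sub, eval_X, eval_C, sub_self, zero_pow (by omega), zero_mul]
  -- the polynomial part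
  obtain ⟨N, hN⟩ : ∃ N : Polynomial ℂ, N = C ((-1) ^ k * k.factorial : ℂ) *
      (C ((-1) ^ (k + 1) : ℂ) * W + ww a b * (C (c ^ (k + 1))⁻¹ * (X - C 1)) -
        ww a b * (C ((c - 1) ^ (k + 1))⁻¹ * X)) := ⟨_, rfl⟩
  have hNd : N.natDegree ≤ 2 * d := by
    rw [hN]
    refine (natDegree_C_mul_le _ _).trans ?_
    refine (natDegree_sub_le _ _).trans (max_le ((natDegree_add_le _ _).trans (max_le ?_ ?_)) ?_)
    · exact (natDegree_C_mul_le _ _).trans hWd
    · refine natDegree_mul_le.trans ?_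
      have h3 : (C (c ^ (k + 1))⁻¹ * (X - C 1) : Polynomial ℂ).natDegree ≤ 1 :=
        (natDegree_C_mul_le _ _).trans (by rw [natDegree_X_sub_C])
      omega
    · refine natDegree_mul_le.trans ?_
      have h3 : (C ((c - 1) ^ (k + 1))⁻¹ * X : Polynomial ℂ).natDegree ≤ 1 :=
        (natDegree_C_mul_le _ _).trans (by rw [natDegree_X])
      omega
  have hNe : ∀ z : ℂ, N.eval z = (-1) ^ k * k.factorial * ((-1) ^ (k + 1) * W.eval z +
      (ww a b).eval z * ((c ^ (k + 1))⁻¹ * (z - 1)) -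
        (ww a b).eval z * (((c - 1) ^ (k + 1))⁻¹ * z)) := by
    intro z
    rw [hN]
    simp only [eval_sub, eval_add, eval_mul, eval_C, eval_X]
  refine ⟨-N - q, k.factorial * W.eval c / b.eval c ^ 2, ?_, ?_, ?_, ?_⟩
  · exact div_ne_zero (mul_ne_zero (Nat.cast_ne_zero.2 k.factorial_ne_zero) hWc)
      (pow_ne_zero _ hbc)
  · refine (natDegree_sub_le _ _).trans (max_le ?_ hq)
    rw [natDegree_neg]
    exact hNd
  · intro z hz
    have hzc : z ≠ c := fun h3 => hSc (h3 ▸ hz)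
    have hcz : c - z ≠ 0 := sub_ne_zero.2 hzc.symm
    have hbz := hSb z hz
    have h4 := h z hz
    have h8 : (ww a b).eval z * ((c - z) ^ (k + 1))⁻¹ = (-1) ^ (k + 1) * W.eval z := by
      rw [hW, eval_mul, eval_pow, eval_sub, eval_X, eval_C]
      have e : (z - c) ^ (k + 1) = (-1) ^ (k + 1) * (c - z) ^ (k + 1) := by
        rw [← mul_pow]
        congr 1
        ring
      rw [e]
      field_simp
    have h5 : dg a b z * iteratedDeriv k (Kn z) c = N.eval z / b.eval z ^ 2 := by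
      rw [kn_itd k h0 h1 hzc.symm, hNe, ← h8]
      unfold dg
      ring
    have h7 : Ξ (gg a b z) = dg a b z * Ξ z - dg a b z * iteratedDeriv k (Kn z) c -
        q.eval z / b.eval z ^ 2 := by
      linear_combination -h4
    rw [h7, h5, eval_sub, eval_neg]
    ring
  · have h9 : N.eval c = -(k.factorial * W.eval c) := by
      rw [hNe, hwc]
      have e : ((-1 : ℂ) ^ k) * (-1) ^ (k + 1) = -1 := by
        rw [← pow_add, show k + (k + 1) = 2 * k + 1 by ring, pow_succ, pow_mul]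
        simp
      linear_combination (k.factorial : ℂ) * W.eval c * e
    have h8 : Ξ (gg a b c) = -(q.eval c / b.eval c ^ 2) := by linear_combination -hc
    rw [eval_sub, eval_neg, h9, h8]
    ring

end Pool.H50.ST
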